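import Pool.Agent.helper74.VN.SpecC
import Pool.Agent.helper44.VQ.VFB

/-!
# MP_07c750, project VN, row NTS: the small step
-/

set_option autoImplicit false

open scoped MatrixGroups ContDiff Topology UpperHalfPlane ComplexConjugate ENNReal
open UpperHalfPlane MeasureTheory Filter Set

namespace Pool.Agent.VN

open Pool.Agent.RS Pool.Agent.VQ

noncomputable section

/-- packets cut off outside the window -/
def NTS_c (R : ℝ) (Ψ : SL(2, ℝ) × ℝ → ℍ → ℂ) (p : SL(2, ℝ) × ℝ) (z : ℍ) : ℂ :=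
  (GW 2 R).indicator (fun p => Ψ p z) p

theorem NTS_mem {R : ℝ} {Ψ : SL(2, ℝ) × ℝ → ℍ → ℂ} {p : SL(2, ℝ) × ℝ} (hp : p ∈ GW 2 R) (z : ℍ) :
    NTS_c R Ψ p z = Ψ p z := indicator_of_mem hp _

theorem NTS_not {R : ℝ} {Ψ : SL(2, ℝ) × ℝ → ℍ → ℂ} {p : SL(2, ℝ) × ℝ} (hp : p ∉ GW 2 R) (z : ℍ) :
    NTS_c R Ψ p z = 0 := indicator_of_notMem hp _

theorem NTS_GWm {R : ℝ} : MeasurableSet (GW 2 R) := MeasurableSet.univ.prod measurableSet_Icc

theorem NTS_meas {R k : ℝ} {Ψ : SL(2, ℝ) × ℝ → ℍ → ℂ} (hw : 2 * R ^ (-(1 / 4) : ℝ) ≤ k)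
    (hc : ContinuousOn (fun x : (SL(2, ℝ) × ℝ) × ℍ => Ψ x.1 x.2) {x | |x.1.2| ≤ k}) :
    Measurable (fun x : (SL(2, ℝ) × ℝ) × ℍ => NTS_c R Ψ x.1 x.2) := by
  classical
  have hs : MeasurableSet ((GW 2 R) ×ˢ (univ : Set ℍ)) := NTS_GWm.prod MeasurableSet.univ
  have h1 : ContinuousOn (fun x : (SL(2, ℝ) × ℝ) × ℍ => Ψ x.1 x.2) ((GW 2 R) ×ˢ (univ : Set ℍ)) := by
    refine hc.mono fun x hx => ?_
    have h2 := hx.1.2
    show |x.1.2| ≤ k
    exact (abs_le.2 h2).trans hw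
  have h2 := h1.measurable_piecewise (g := fun _ => (0 : ℂ)) continuousOn_const hs
  have h3 : (fun x : (SL(2, ℝ) × ℝ) × ℍ => NTS_c R Ψ x.1 x.2) =
      ((GW 2 R) ×ˢ (univ : Set ℍ)).piecewise (fun x => Ψ x.1 x.2) (fun _ => (0 : ℂ)) := by
    funext x
    by_cases hx : x.1 ∈ GW 2 R
    · have hx' : x ∈ (GW 2 R) ×ˢ (univ : Set ℍ) := ⟨hx, mem_univ _⟩
      rw [piecewise_eq_of_mem _ _ _ hx', NTS_mem hx]
    · have hx' : x ∉ (GW 2 R) ×ˢ (univ : Set ℍ) := fun h => hx h.1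
      rw [piecewise_eq_of_notMem _ _ _ hx', NTS_not hx]
  rw [h3]
  exact h2

/-- the facts on packets which are used -/
structure NTS_R (Γ : Subgroup SL(2, ℝ)) (R m : ℝ) (x : SL(2, ℝ) × ℝ → ℍ) (Ψ : SL(2, ℝ) × ℝ → ℍ → ℂ) : Prop where
  meas : Measurable (fun y : (SL(2, ℝ) × ℝ) × ℍ => NTS_c R Ψ y.1 y.2)
  bd : ∀ p z, ‖NTS_c R Ψ p z‖ ≤ m
  s1 : ∀ p z, NTS_c R Ψ p z ≠ 0 → p ∈ GW 2 R ∧ dist (x p) z ≤ 1
  inv : ∀ (γ : Γ) (p : SL(2, ℝ) × ℝ) (z : ℍ), NTS_c R Ψ ((γ : SL(2, ℝ)) * p.1, p.2) (γ • z) = NTS_c R Ψ p z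

theorem NTS_mkR {Γ : Subgroup SL(2, ℝ)} {R k m : ℝ} {x : SL(2, ℝ) × ℝ → ℍ} {Ψ : SL(2, ℝ) × ℝ → ℍ → ℂ}
    (hw : 2 * R ^ (-(1 / 4) : ℝ) ≤ k) (hm : 0 ≤ m)
    (hc : ContinuousOn (fun x : (SL(2, ℝ) × ℝ) × ℍ => Ψ x.1 x.2) {x | |x.1.2| ≤ k})
    (hb : ∀ p ∈ GW 2 R, ∀ z, ‖Ψ p z‖ ≤ m ∧ (Ψ p z ≠ 0 → dist (x p) z ≤ 1))
    (hi : ∀ (γ : Γ) (p : SL(2, ℝ) × ℝ) (z : ℍ), |p.2| ≤ k → Ψ ((γ : SL(2, ℝ)) * p.1, p.2) (γ • z) = Ψ p z) :
    NTS_R Γ R m x Ψ where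
  meas := NTS_meas hw hc
  bd p z := by
    by_cases hp : p ∈ GW 2 R
    · rw [NTS_mem hp]
      exact (hb p hp z).1
    · rw [NTS_not hp, norm_zero]
      exact hm
  s1 p z h := by
    by_cases hp : p ∈ GW 2 R
    · rw [NTS_mem hp] at h
      exact ⟨hp, (hb p hp z).2 h⟩
    · rw [NTS_not hp] at h
      exact absurd rfl h
  inv γ p z := by
    by_cases hp : p ∈ GW 2 R
    · have hp' : ((γ : SL(2, ℝ)) * p.1, p.2) ∈ GW 2 R := ⟨mem_univ _, hp.2⟩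
      rw [NTS_mem hp, NTS_mem hp']
      exact hi γ p z ((abs_le.2 hp.2).trans hw)
    · have hp' : ((γ : SL(2, ℝ)) * p.1, p.2) ∉ GW 2 R := fun h => hp ⟨mem_univ _, h.2⟩
      rw [NTS_not hp, NTS_not hp']

theorem NTS_comp {Γ : Subgroup SL(2, ℝ)} {R m : ℝ} {x : SL(2, ℝ) × ℝ → ℍ} {Ψ : SL(2, ℝ) × ℝ → ℍ → ℂ}
    (h : NTS_R Γ R m x Ψ) {X : Type} [MeasurableSpace X] {g : X → SL(2, ℝ) × ℝ} {k : X → ℍ}
    (hg : Measurable g) (hk : Measurable k) : Measurable (fun x => NTS_c R Ψ (g x) (k x)) := by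
  have h1 : Measurable (fun x => (g x, k x)) := hg.prodMk hk
  have h2 := h.meas
  exact h2.comp h1

/-- the full kernel -/
def NTS_k (R : ℝ) (Ψ G : SL(2, ℝ) × ℝ → ℍ → ℂ) (p q : SL(2, ℝ) × ℝ) : ℂ :=
  ∫ z : ℍ, conj (NTS_c R Ψ p z) * NTS_c R G q z

section gen

variable {Γ : Subgroup SL(2, ℝ)} {F : Set ℍ} {R m m' δ : ℝ} {x : SL(2, ℝ) × ℝ → ℍ}
  {Ψ G : SL(2, ℝ) × ℝ → ℍ → ℂ} {S : SL(2, ℝ) × ℝ → SL(2, ℝ) × ℝ → ℂ}

theorem NTS_kmeas (hΨ : NTS_R Γ R m x Ψ) (hG : NTS_R Γ R m' (fun q => q.1 • I) G) :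
    Measurable (Function.uncurry (NTS_k R Ψ G)) := by
  have h1 : Measurable (fun y : ((SL(2, ℝ) × ℝ) × (SL(2, ℝ) × ℝ)) × ℍ =>
      conj (NTS_c R Ψ y.1.1 y.2) * NTS_c R G y.1.2 y.2) := by
    have e1 : Measurable (fun x : ((SL(2, ℝ) × ℝ) × (SL(2, ℝ) × ℝ)) × ℍ => NTS_c R G x.1.2 x.2) :=
      NTS_comp hG (measurable_snd.comp measurable_fst) measurable_snd
    have e2 : Measurable (fun x : ((SL(2, ℝ) × ℝ) × (SL(2, ℝ) × ℝ)) × ℍ => NTS_c R Ψ x.1.1 x.2) :=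
      NTS_comp hΨ (measurable_fst.comp measurable_fst) measurable_snd
    exact (Complex.continuous_conj.measurable.comp e2).mul e1
  have h2 := h1.stronglyMeasurable.integral_prod_right' (ν := (volume : Measure ℍ))
  exact h2.measurable

theorem NTS_kinv (hΨ : NTS_R Γ R m x Ψ) (hG : NTS_R Γ R m' (fun q => q.1 • I) G) (γ : Γ)
    (p q : SL(2, ℝ) × ℝ) :
    NTS_k R Ψ G ((γ : SL(2, ℝ)) * p.1, p.2) ((γ : SL(2, ℝ)) * q.1, q.2) = NTS_k R Ψ G p q := by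
  unfold NTS_k
  rw [← QU.A_INV.2.2.2.1 ℂ (γ : SL(2, ℝ))]
  have e1 : ∀ z : ℍ, (γ : SL(2, ℝ)) • z = γ • z := fun z => rfl
  simp only [e1, hΨ.inv, hG.inv]

/-- the difference as an integral -/
theorem NTS_pair (hΨ : NTS_R Γ R m x Ψ) (hG : NTS_R Γ R m' (fun q => q.1 • I) G)
    (hSm : Measurable (Function.uncurry S)) (hS0 : ∀ p q, S p q ≠ 0 → q ∈ GW 2 R)
    (hSk : ∀ p ∈ GW 2 R, ∀ q ∈ GW 2 R, S p q = NTS_k R Ψ G p q ∨ (S p q = 0 ∧ ‖NTS_k R Ψ G p q‖ ≤ δ))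
    {v : SL(2, ℝ) × ℝ → ℂ} (hv : Measurable v) {b : ℝ} (hb : ∀ p, ‖v p‖ ≤ b)
    {p : SL(2, ℝ) × ℝ} (hp : p ∈ GW 2 R) :
    ‖Op S v p - ∫ z : ℍ, (∫ q in GW 2 R, v q * G q z ∂mP) * conj (Ψ p z)‖ₑ ≤
      ∫⁻ q, ‖S p q - NTS_k R Ψ G p q‖ₑ * ‖v q‖ₑ ∂(mP.restrict (GW 2 R)) := by
  have : SigmaFinite mG := RS.A_GMG.2.2.1
  have : SigmaFinite mP := by unfold mP; infer_instance
  have hb0 : 0 ≤ b := (norm_nonneg _).trans (hb p)
  have hm0 : 0 ≤ m := (norm_nonneg _).trans (hΨ.bd p I)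
  have hm0' : 0 ≤ m' := (norm_nonneg _).trans (hG.bd p I)
  set b' : ℝ := 1 + 1 + dist (x p) I with hb'
  set T : Set (ℍ × (SL(2, ℝ) × ℝ)) := Metric.closedBall (x p) 1 ×ˢ (dG (Metric.closedBall I b') ×ˢ Wi 2 R) with hT
  set F2 : ℍ → SL(2, ℝ) × ℝ → ℂ := fun z q => v q * NTS_c R G q z * conj (NTS_c R Ψ p z) with hF2
  have hF2m : Measurable (Function.uncurry F2) := by
    have e1 : Measurable (fun y : ℍ × (SL(2, ℝ) × ℝ) => NTS_c R G y.2 y.1) := NTS_comp hG measurable_snd measurable_fst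
    have e2 : Measurable (fun y : ℍ × (SL(2, ℝ) × ℝ) => NTS_c R Ψ p y.1) := NTS_comp hΨ measurable_const measurable_fst
    exact ((hv.comp measurable_snd).mul e1).mul (Complex.continuous_conj.measurable.comp e2)
  have hTf : ((volume : Measure ℍ).prod (mP.restrict (GW 2 R))) T ≠ ⊤ := by
    rw [hT, Measure.prod_prod]
    refine ENNReal.mul_ne_top (isCompact_closedBall _ _).measure_lt_top.ne ?_
    refine ne_top_of_le_ne_top ?_ (Measure.restrict_apply_le _ _)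
    rw [mP, Measure.prod_prod, (RS.A_GMG.1 _ Metric.isClosed_closedBall.measurableSet).2]
    refine ENNReal.mul_ne_top (isCompact_closedBall _ _).measure_lt_top.ne ?_
    rw [Wi, Real.volume_Icc]
    exact ENNReal.ofReal_ne_top
  have hint : Integrable (Function.uncurry F2) ((volume : Measure ℍ).prod (mP.restrict (GW 2 R))) := by
    rw [← integrableOn_iff_integrable_of_support_subset (s := T)]
    · refine Measure.integrableOn_of_bounded (M := b * m' * m) hTf hF2m.aestronglyMeasurable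
        (Eventually.of_forall fun y => ?_)
      show ‖v y.2 * NTS_c R G y.2 y.1 * conj (NTS_c R Ψ p y.1)‖ ≤ b * m' * m
      rw [norm_mul, norm_mul, RCLike.norm_conj]
      have a1 := hb y.2
      have a2 := hG.bd y.2 y.1
      have a3 := hΨ.bd p y.1
      gcongr
    · intro y hy
      have h1 : v y.2 * NTS_c R G y.2 y.1 * conj (NTS_c R Ψ p y.1) ≠ 0 := hy
      have h2 : NTS_c R G y.2 y.1 ≠ 0 := fun h0 => h1 (by rw [h0, mul_zero, zero_mul])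
      have h3 : NTS_c R Ψ p y.1 ≠ 0 := fun h0 => h1 (by rw [h0, map_zero, mul_zero])
      obtain ⟨a1, a2⟩ := hG.s1 _ _ h2
      obtain ⟨-, a3⟩ := hΨ.s1 _ _ h3
      refine ⟨?_, ?_, a1.2⟩
      · rw [Metric.mem_closedBall, dist_comm]
        exact a3
      · show (y.2.1 • I : ℍ) ∈ Metric.closedBall I b'
        rw [Metric.mem_closedBall]
        have t1 := dist_triangle (y.2.1 • I : ℍ) y.1 I
        have t2 := dist_triangle y.1 (x p) I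
        rw [dist_comm y.1 (x p)] at t2
        linarith
  have e1 : ∫ z : ℍ, (∫ q in GW 2 R, v q * G q z ∂mP) * conj (Ψ p z) =
      ∫ z : ℍ, ∫ q, F2 z q ∂(mP.restrict (GW 2 R)) := by
    congr 1
    funext z
    rw [← integral_mul_const]
    refine setIntegral_congr_fun NTS_GWm fun q hq => ?_
    simp only [hF2]
    rw [NTS_mem hq, NTS_mem hp]
  have e2 : ∀ q, ∫ z : ℍ, F2 z q = NTS_k R Ψ G p q * v q := by
    intro q
    rw [NTS_k, ← integral_mul_const]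
    congr 1
    funext z
    simp only [hF2]
    ring
  have e3 : Integrable (fun q => NTS_k R Ψ G p q * v q) (mP.restrict (GW 2 R)) := by
    have := hint.integral_prod_right
    refine this.congr (Eventually.of_forall fun q => ?_)
    exact e2 q
  have e4 : Integrable (fun q => S p q * v q) (mP.restrict (GW 2 R)) := by
    refine e3.mono ((hSm.comp measurable_prodMk_left).mul hv).aestronglyMeasurable ?_
    refine (ae_restrict_iff' NTS_GWm).2 (Eventually.of_forall fun q hq => ?_)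
    rw [norm_mul, norm_mul]
    refine mul_le_mul_of_nonneg_right ?_ (norm_nonneg _)
    rcases hSk p hp q hq with h | ⟨h, -⟩
    · rw [h]
    · rw [h, norm_zero]
      exact norm_nonneg _
  have e5 : Op S v p = ∫ q, S p q * v q ∂(mP.restrict (GW 2 R)) := by
    rw [Op]
    refine (setIntegral_eq_integral_of_forall_compl_eq_zero fun q hq => ?_).symm
    have : S p q = 0 := by
      by_contra h
      exact hq (hS0 p q h)
    rw [this, zero_mul]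
  rw [e5, e1, integral_integral_swap hint]
  simp only [e2]
  rw [← integral_sub e4 e3]
  refine (enorm_integral_le_lintegral_enorm _).trans (lintegral_mono fun q => ?_)
  show ‖S p q * v q - NTS_k R Ψ G p q * v q‖ₑ ≤ ‖S p q - NTS_k R Ψ G p q‖ₑ * ‖v q‖ₑ
  rw [← sub_mul, enorm_mul]

/-- the error of the truncation -/
theorem NTS_err (hVSH : VSH_stmt) (hVDM : VDM_stmt) (hD : Dm Γ F) (hΨ : NTS_R Γ R m x Ψ)
    (hG : NTS_R Γ R m' (fun q => q.1 • I) G) (hKZ : KZ Γ dW S) (hS0 : ∀ p q, S p q ≠ 0 → p ∈ GW 2 R ∧ q ∈ GW 2 R)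
    (hδ : 0 ≤ δ)
    (hSk : ∀ p ∈ GW 2 R, ∀ q ∈ GW 2 R, S p q = NTS_k R Ψ G p q ∨ (S p q = 0 ∧ ‖NTS_k R Ψ G p q‖ ≤ δ))
    {V : ℝ} (hV : 0 ≤ V) (hV1 : ∀ p ∈ GW 2 R, mP {q | q ∈ GW 2 R ∧ dist (x p) (q.1 • I) ≤ 2} ≤ ENNReal.ofReal V)
    (hV2 : ∀ q : SL(2, ℝ) × ℝ, mP {p | p ∈ GW 2 R ∧ dist (q.1 • I : ℍ) (x p) ≤ 2} ≤ ENNReal.ofReal V)
    {v : SL(2, ℝ) × ℝ → ℂ} (hv : FP Γ F v) (hO : FP Γ F (Op S v)) {T : SL(2, ℝ) × ℝ → ℂ} (hT : FP Γ F T)
    (hTe : ∀ p ∈ GW 2 R, T p = ∫ z : ℍ, (∫ q in GW 2 R, v q * G q z ∂mP) * conj (Ψ p z)) :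
    nP F 2 R (fun p => Op S v p - T p) ≤ (δ * V) ^ 2 * nP F 2 R v := by
  obtain ⟨hcG, hF, huni, -, hWW⟩ := hVDM Γ F hD
  obtain ⟨hsf, hmp, -, hres, hdG, -⟩ := hWW (Wi 2 R) measurableSet_Icc
  set W : Measure (SL(2, ℝ) × ℝ) := mP.restrict (GW 2 R) with hWd
  have hsf' : SigmaFinite W := hsf
  set a : ℝ≥0∞ := ENNReal.ofReal (δ * V) with ha
  have hae : ENNReal.ofReal δ * ENNReal.ofReal V = a := (ENNReal.ofReal_mul hδ).symm
  have hPWm : MeasurableSet (PW F 2 R) := hdG.prod measurableSet_Icc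
  have hPG : PW F 2 R ⊆ GW 2 R := fun p hp => ⟨mem_univ _, hp.2⟩
  obtain ⟨b, hb⟩ := hv.bdd
  set K : SL(2, ℝ) × ℝ → SL(2, ℝ) × ℝ → ℝ≥0∞ := fun p q => ‖S p q - NTS_k R Ψ G p q‖ₑ with hK
  have hk0 : ∀ p q, NTS_k R Ψ G p q ≠ 0 → dist (x p) (q.1 • I) ≤ 2 := by
    intro p q h
    by_contra hcon
    apply h
    unfold NTS_k
    have : ∀ z : ℍ, conj (NTS_c R Ψ p z) * NTS_c R G q z = 0 := by
      intro z
      by_contra h0
      have h1 : NTS_c R Ψ p z ≠ 0 := fun h' => h0 (by rw [h', map_zero, zero_mul])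
      have h2 : NTS_c R G q z ≠ 0 := fun h' => h0 (by rw [h', mul_zero])
      have h3 := (hΨ.s1 _ _ h1).2
      have h4 := (hG.s1 _ _ h2).2
      have h5 := dist_triangle (x p) z (q.1 • I : ℍ)
      rw [dist_comm z] at h5
      linarith
    simp only [this, integral_zero]
  have hKle : ∀ p ∈ GW 2 R, ∀ q ∈ GW 2 R, K p q ≤ ENNReal.ofReal δ ∧ (K p q ≠ 0 → dist (x p) (q.1 • I) ≤ 2) := by
    intro p hp q hq
    rcases hSk p hp q hq with h | ⟨h, h'⟩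
    · have : K p q = 0 := by
        simp only [hK]
        rw [h, sub_self, enorm_zero]
      rw [this]
      exact ⟨zero_le, fun h => absurd rfl h⟩
    · have e : K p q = ‖NTS_k R Ψ G p q‖ₑ := by
        simp only [hK]
        rw [h, zero_sub, enorm_neg]
      rw [e]
      refine ⟨?_, fun h0 => hk0 p q fun h1 => h0 (by rw [h1, enorm_zero])⟩
      rw [← ofReal_norm]
      exact ENNReal.ofReal_le_ofReal h'
  have hK1 : ∀ p, ∫⁻ q, K p q ∂W ≤ a := by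
    intro p
    by_cases hp : p ∈ GW 2 R
    · have h1 : ∫⁻ q, K p q ∂W ≤ ∫⁻ q, {q | q ∈ GW 2 R ∧ dist (x p) (q.1 • I) ≤ 2}.indicator (fun _ => ENNReal.ofReal δ) q ∂W := by
        refine setLIntegral_mono' NTS_GWm fun q hq => ?_
        by_cases h0 : K p q = 0
        · rw [h0]
          exact zero_le
        · rw [indicator_of_mem (show q ∈ {q | q ∈ GW 2 R ∧ dist (x p) (q.1 • I) ≤ 2} from ⟨hq, (hKle p hp q hq).2 h0⟩)]
          exact (hKle p hp q hq).1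
      refine h1.trans ((lintegral_indicator_const_le _ _).trans ?_)
      rw [← hae]
      refine mul_le_mul_right ?_ _
      exact (Measure.restrict_apply_le _ _).trans (hV1 p hp)
    · have : ∀ q, K p q = 0 := by
        intro q
        have h1 : S p q = 0 := by
          by_contra h
          exact hp (hS0 p q h).1
        have h2 : NTS_k R Ψ G p q = 0 := by
          unfold NTS_k
          simp [NTS_not hp]
        simp only [hK]
        rw [h1, h2, sub_zero, enorm_zero]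
      simp [this]
  have hK2 : ∀ q, ∫⁻ p, K p q ∂W ≤ a := by
    intro q
    by_cases hq : q ∈ GW 2 R
    · have h1 : ∫⁻ p, K p q ∂W ≤ ∫⁻ p, {p | p ∈ GW 2 R ∧ dist (q.1 • I : ℍ) (x p) ≤ 2}.indicator (fun _ => ENNReal.ofReal δ) p ∂W := by
        refine setLIntegral_mono' NTS_GWm fun p hp => ?_
        by_cases h0 : K p q = 0
        · rw [h0]
          exact zero_le
        · rw [indicator_of_mem (show p ∈ {p | p ∈ GW 2 R ∧ dist (q.1 • I : ℍ) (x p) ≤ 2} from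
            ⟨hp, by rw [dist_comm]; exact (hKle p hp q hq).2 h0⟩)]
          exact (hKle p hp q hq).1
      refine h1.trans ((lintegral_indicator_const_le _ _).trans ?_)
      rw [← hae]
      refine mul_le_mul_right ?_ _
      exact (Measure.restrict_apply_le _ _).trans (hV2 q)
    · have : ∀ p, K p q = 0 := by
        intro p
        have h1 : S p q = 0 := by
          by_contra h
          exact hq (hS0 p q h).2
        have h2 : NTS_k R Ψ G p q = 0 := by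
          unfold NTS_k
          simp [NTS_not hq]
        simp only [hK]
        rw [h1, h2, sub_zero, enorm_zero]
      simp [this]
  have hresW : W.restrict (dG F ×ˢ univ) = mP.restrict (PW F 2 R) := hres
  have hSch : ∫⁻ p in PW F 2 R, (∫⁻ q, K p q * ‖v q‖ₑ ∂W) ^ 2 ∂mP ≤ a * a * ∫⁻ q in PW F 2 R, ‖v q‖ₑ ^ 2 ∂mP := by
    rw [← hresW]
    refine (hVSH Γ (SL(2, ℝ) × ℝ) (SL(2, ℝ) × ℝ) W W (dG F ×ˢ univ) (dG F ×ˢ univ) ?_ ?_ ?_ ?_ ?_ ?_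
      K ?_ ?_).2 a a (fun y => ‖v y‖ₑ) hv.meas.enorm ?_ hK1 hK2
    · exact fun γ => hmp γ
    · exact fun γ => hmp γ
    · intro y
      obtain ⟨γ, h1, h2⟩ := huni (y.1 • I)
      refine ⟨γ, ⟨?_, mem_univ _⟩, fun γ' h' => h2 γ' ?_⟩
      · show (((γ : SL(2, ℝ)) * y.1) • I : ℍ) ∈ F
        rw [mul_smul]
        exact h1
      · have h3 : (((γ' : SL(2, ℝ)) * y.1) • I : ℍ) ∈ F := h'.1
        rw [mul_smul] at h3
        exact h3
    · intro y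
      obtain ⟨γ, h1, h2⟩ := huni (y.1 • I)
      refine ⟨γ, ⟨?_, mem_univ _⟩, fun γ' h' => h2 γ' ?_⟩
      · show (((γ : SL(2, ℝ)) * y.1) • I : ℍ) ∈ F
        rw [mul_smul]
        exact h1
      · have h3 : (((γ' : SL(2, ℝ)) * y.1) • I : ℍ) ∈ F := h'.1
        rw [mul_smul] at h3
        exact h3
    · exact hdG.prod MeasurableSet.univ
    · exact hdG.prod MeasurableSet.univ
    · exact (hKZ.meas.sub (NTS_kmeas hΨ hG)).enorm
    · intro γ p q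
      have h1 : S (γ • p) (γ • q) = S p q := hKZ.inv γ p q
      have h2 : NTS_k R Ψ G (γ • p) (γ • q) = NTS_k R Ψ G p q := NTS_kinv hΨ hG γ p q
      simp only [hK]
      rw [h1, h2]
    · intro γ y
      show ‖v ((γ : SL(2, ℝ)) * y.1, y.2)‖ₑ = ‖v y‖ₑ
      rw [hv.inv]
  have hA0 : 0 ≤ δ * V := by positivity
  have e0 : nP F 2 R (fun p => Op S v p - T p) = (∫⁻ p in PW F 2 R, ‖Op S v p - T p‖ₑ ^ 2 ∂mP).toReal :=
    VFB_nP (hO.meas.sub hT.meas)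
  rw [e0, VFB_nP hv.meas, ← ENNReal.toReal_ofReal (sq_nonneg (δ * V)), ← ENNReal.toReal_mul]
  refine ENNReal.toReal_mono (ENNReal.mul_ne_top ENNReal.ofReal_ne_top (VFB_fin hF R hv)) ?_
  have e1 : ENNReal.ofReal ((δ * V) ^ 2) = a * a := by
    rw [sq, ENNReal.ofReal_mul hA0]
  rw [e1]
  refine le_trans ?_ hSch
  refine setLIntegral_mono' hPWm fun p hp => ?_
  have h1 := NTS_pair hΨ hG hKZ.meas (fun p q h => (hS0 p q h).2) hSk hv.meas hb (hPG hp)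
  rw [← hTe p (hPG hp)] at h1
  gcongr

end gen

/-- sums -/
theorem NTS_add {Γ : Subgroup SL(2, ℝ)} {F : Set ℍ} (hF : MeasurableSet F) (R : ℝ)
    {f g : SL(2, ℝ) × ℝ → ℂ} (hf : FP Γ F f) (hg : FP Γ F g) {s : ℝ} (hs : 0 < s) :
    nP F 2 R f ≤ (1 + s) * nP F 2 R g + (1 + s⁻¹) * nP F 2 R (fun p => f p - g p) := by
  have i1 := VFB_fp hF R hf
  have i2 := VFB_fp hF R hg
  have hd : FP Γ F (fun p => f p - g p) := by
    obtain ⟨b1, hb1⟩ := hf.bdd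
    obtain ⟨b2, hb2⟩ := hg.bdd
    obtain ⟨c1, hc1⟩ := hf.supp
    obtain ⟨c2, hc2⟩ := hg.supp
    refine ⟨hf.meas.sub hg.meas, ⟨b1 + b2, fun p => (norm_sub_le _ _).trans (add_le_add (hb1 p) (hb2 p))⟩,
      fun γ p => by rw [hf.inv, hg.inv], ⟨max c1 c2, fun p hp h => ?_⟩⟩
    by_cases h1 : f p = 0
    · refine (hc2 p hp fun h2 => h ?_).trans (le_max_right _ _)
      rw [h1, h2, sub_zero]
    · exact (hc1 p hp h1).trans (le_max_left _ _)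
  have i3 := VFB_fp hF R hd
  have h1 : ∀ p, ‖f p‖ ^ 2 ≤ (1 + s) * ‖g p‖ ^ 2 + (1 + s⁻¹) * ‖f p - g p‖ ^ 2 := by
    intro p
    have h2 : ‖f p‖ ≤ ‖g p‖ + ‖f p - g p‖ := by
      have := norm_add_le (g p) (f p - g p)
      rwa [add_sub_cancel] at this
    have h3 : ‖f p‖ ^ 2 ≤ (‖g p‖ + ‖f p - g p‖) ^ 2 := by
      have := norm_nonneg (f p)
      gcongr
    set u := ‖g p‖
    set w := ‖f p - g p‖
    have h4 : 2 * u * w ≤ s * u ^ 2 + s⁻¹ * w ^ 2 := by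
      have h5 : 0 ≤ s⁻¹ * (s * u - w) ^ 2 := by positivity
      have h6 : s⁻¹ * (s * u - w) ^ 2 = s * u ^ 2 - 2 * u * w + s⁻¹ * w ^ 2 := by
        field_simp
        ring
      linarith
    nlinarith
  calc nP F 2 R f ≤ ∫ p in PW F 2 R, ((1 + s) * ‖g p‖ ^ 2 + (1 + s⁻¹) * ‖f p - g p‖ ^ 2) ∂mP :=
        integral_mono i1 ((i2.const_mul _).add (i3.const_mul _)) h1
    _ = (1 + s) * nP F 2 R g + (1 + s⁻¹) * nP F 2 R (fun p => f p - g p) := by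
        rw [integral_add (i2.const_mul _) (i3.const_mul _), integral_const_mul, integral_const_mul]
        rfl

theorem NTS_PV {Γ : Subgroup SL(2, ℝ)} {k : ℝ} {B : ℕ → ℝ} {U : ℍ → ℝ} (h : PotN Γ k B U) : PV Γ k U := by
  refine ⟨h.inv, fun z => ⟨?_, ?_⟩⟩
  · have h1 := h.lo z
    have h2 := h.kpos.1
    linarith
  · obtain ⟨g, rfl⟩ : ∃ g : SL(2, ℝ), g • I = z := ⟨toSL2R z, toSL2R_smul_I z⟩
    have h1 := h.up g 0 (by norm_num) 0 (by norm_num)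
    rw [norm_iteratedFDeriv_zero, Real.norm_eq_abs] at h1
    have h2 : Ug U g 0 = U (g • I) := by
      unfold Ug
      congr 2
      unfold cdi
      rw [add_zero, sub_zero, mul_div_assoc, div_self (by norm_num), mul_one]
      exact ofComplex_apply I
    rw [h2] at h1
    exact (le_abs_self _).trans h1

theorem NTS_num {R : ℝ} (hR : 10 ^ 20 ≤ R) :
    (1 + R ^ (-(1 / 4) : ℝ)) * (1 + R ^ (-(1 / 4) : ℝ)) ^ 2 + (1 + (R ^ (-(1 / 4) : ℝ))⁻¹) * R ^ (-8 : ℝ) ≤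
      (1 + R ^ (-(1 / 5) : ℝ)) ^ 2 := by
  have hR0 : 0 < R := by linarith [show (0 : ℝ) < 10 ^ 20 by norm_num]
  have hR1 : 1 ≤ R := by linarith [show (1 : ℝ) ≤ 10 ^ 20 by norm_num]
  set x := R ^ (-(1 / 4) : ℝ) with hx
  set y := R ^ (-(1 / 5) : ℝ) with hy
  have hx0 : 0 < x := by positivity
  have hy0 : 0 < y := by positivity
  have h1 : x = y * R ^ (-(1 / 20) : ℝ) := by
    rw [hx, hy, ← Real.rpow_add hR0]
    norm_num
  have h2 : R ^ (-(1 / 20) : ℝ) ≤ 1 / 10 := by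
    rw [Real.rpow_neg hR0.le]
    have h3 : (10 : ℝ) ≤ R ^ (1 / 20 : ℝ) := by
      have h4 : (10 : ℝ) = ((10 : ℝ) ^ 20) ^ (1 / 20 : ℝ) := by
        rw [← Real.rpow_natCast, ← Real.rpow_mul (by norm_num)]
        norm_num
      rw [h4]
      exact Real.rpow_le_rpow (by norm_num) hR (by norm_num)
    rw [show (1 : ℝ) / 10 = 10⁻¹ by norm_num]
    exact inv_anti₀ (by norm_num) h3
  have hxy : x ≤ y / 10 := by
    rw [h1]
    nlinarith
  have hy1 : y ≤ 1 := Real.rpow_le_one_of_one_le_of_nonpos hR1 (by norm_num)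
  have hx1 : x ≤ 1 / 10 := by linarith
  have h5 : R ^ (-8 : ℝ) ≤ x ^ 2 := by
    rw [hx, ← Real.rpow_natCast, ← Real.rpow_mul hR0.le]
    exact Real.rpow_le_rpow_of_exponent_le hR1 (by norm_num)
  have h6 : (1 + x⁻¹) * R ^ (-8 : ℝ) ≤ 2 * x := by
    have h7 : (1 + x⁻¹) * R ^ (-8 : ℝ) ≤ (1 + x⁻¹) * x ^ 2 := mul_le_mul_of_nonneg_left h5 (by positivity)
    have h8 : (1 + x⁻¹) * x ^ 2 = x ^ 2 + x := by
      field_simp
    nlinarith
  nlinarith [mul_pos hx0 hx0, mul_pos (mul_pos hx0 hx0) hx0]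

theorem NTS_adm {C C' : ℝ} (hC : 1 ≤ C) (hCC : C ≤ C') {A : Prm} (h : Adm C' A) : Adm C A := by
  have h0 := h.e3
  have hC' : 1 ≤ C' := hC.trans hCC
  have hz : 0 < A.z := by
    have := h.z
    nlinarith
  have hz1 : 0 < A.z1 := by
    have := h.z1
    nlinarith
  have hz2 : 0 < A.z2 := by
    have := h.z2
    nlinarith
  have hm : (1 : ℝ) ≤ A.m := by exact_mod_cast h.m
  refine ⟨h.e3, h.m, ?_, ?_, ?_, ?_, h.tu⟩
  · exact (mul_le_mul_of_nonneg_right hCC h0.le).trans h.z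
  · exact (mul_le_mul_of_nonneg_right hCC hz.le).trans h.z1
  · exact (mul_le_mul_of_nonneg_right hCC hz1.le).trans h.z2
  · refine (mul_le_mul_of_nonneg_right hCC ?_).trans h.up
    positivity

theorem NTS_rg {C : ℝ} (hC : 1 ≤ C) {A : Prm} (h : Adm C A) : Rg C A.e3 A.z A.z1 ∧ 0 < A.z1 ∧ A.z2 ≤ 1 ∧ C * A.z1 ≤ A.z2 := by
  have h0 := h.e3
  have hz : 0 < A.z := by
    have := h.z
    nlinarith
  have hz1 : 0 < A.z1 := by
    have := h.z1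
    nlinarith
  have hz2 : 0 < A.z2 := by
    have := h.z2
    nlinarith
  have hm : (1 : ℝ) ≤ A.m := by exact_mod_cast h.m
  have h1 : A.z ≤ A.z1 := by
    have := h.z1
    nlinarith
  have h2 : A.z2 ≤ 1 := by
    have := h.up
    have h3 : A.z2 ≤ A.m * A.z2 := by nlinarith
    have h4 : 0 ≤ A.m * A.z2 := by positivity
    nlinarith
  exact ⟨⟨h0.le, hz, h1, h.z.trans h1, h.z2.trans h2⟩, hz1, h2, h.z2⟩

theorem NTS_nb {s s' : ℝ} (h : s ≤ s') {p q : SL(2, ℝ) × ℝ} (hn : Nb s p q) : Nb s' p q := by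
  refine ⟨?_, hn.2.trans_le h⟩
  rcases hn.1 with h1 | h1
  · exact Or.inl fun i j => (h1 i j).trans_le h
  · exact Or.inr fun i j => (h1 i j).trans_le h

theorem NTS_win {R k : ℝ} (hk : 0 < k) (hR : (2 / k) ^ 4 ≤ R) : 2 * R ^ (-(1 / 4) : ℝ) ≤ k := by
  have h0 : 0 < 2 / k := by positivity
  have hR0 : 0 < R := lt_of_lt_of_le (by positivity) hR
  have h1 : 2 / k ≤ R ^ (1 / 4 : ℝ) := by
    have h2 : 2 / k = ((2 / k) ^ 4) ^ (1 / 4 : ℝ) := by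
      rw [← Real.rpow_natCast, ← Real.rpow_mul h0.le]
      norm_num
    rw [h2]
    exact Real.rpow_le_rpow (by positivity) hR (by norm_num)
  rw [Real.rpow_neg hR0.le]
  have h3 : (R ^ (1 / 4 : ℝ))⁻¹ ≤ (2 / k)⁻¹ := inv_anti₀ h0 h1
  rw [inv_div] at h3
  linarith

theorem NTS_proof (hNUL : NUL_stmt) (hNSA : NSA_stmt) (hNQA : NQA_stmt) (hNUM : NUM_stmt) (hNNV : NNV_stmt)
    (hNFM : NFM_stmt) (hNFR : NFR_stmt) (hNQS : NQS_stmt) (hVSH : VSH_stmt) (hVDM : VDM_stmt) : NTS_stmt := by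
  intro k hk
  obtain ⟨C1, hC1, HUL⟩ := hNUL k hk
  obtain ⟨C2, hC2, HSA⟩ := hNSA k hk
  obtain ⟨C3, hC3, HUM⟩ := hNUM k hk
  obtain ⟨C4, hC4, HNV⟩ := hNNV k hk
  obtain ⟨C5, hC5, HFM⟩ := hNFM k hk
  obtain ⟨C6, hC6, HFR⟩ := hNFR k hk
  refine ⟨8 * (C1 + C2 + C3 + C5), by linarith, ?_⟩
  intro ch B A hch hA
  have hCt : (8 : ℝ) ≤ 8 * (C1 + C2 + C3 + C5) := by linarith
  obtain ⟨⟨-, hz, hzz, -, -⟩, hz1, hz2, hz12⟩ := NTS_rg (by linarith) hA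
  have a1 : Adm C1 A := NTS_adm hC1 (by linarith) hA
  have a2 : Adm C2 A := NTS_adm hC2 (by linarith) hA
  have a3 : Adm C3 A := NTS_adm hC3 (by linarith) hA
  have a5 : Adm C5 A := NTS_adm hC5 (by linarith) hA
  have g1 := NTS_rg hC1 a1
  have g2 := NTS_rg hC2 a2
  have g5 := NTS_rg hC5 a5
  have hz8 : A.z1 ≤ 1 / 8 := by nlinarith
  have hη4 : C5 * A.z1 ≤ 1 / 4 := by nlinarith
  have hη0 : 0 < C5 * A.z1 := by positivity
  obtain ⟨R1, hR1, HUL⟩ := HUL ch A.e3 A.z A.z1 5 B hch g1.1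
  obtain ⟨R2, hR2, HSA⟩ := HSA ch A.e3 A.z A.z1 B hch g2.1
  obtain ⟨R3, hR3, HUM⟩ := HUM ch B A hch a3
  obtain ⟨R5, hR5, HFM⟩ := HFM ch 0 A.e3 A.z A.z1 B hch g5.1
  obtain ⟨R6, hR6, HQA⟩ := hNQA ch A.z k hch hk hz (by linarith)
  obtain ⟨R7, hR7, HQS⟩ := hNQS ch A.z k hch hk hz (by linarith)
  have hk4 : (0 : ℝ) ≤ (2 / k) ^ 4 := by positivity
  refine ⟨R1 + R2 + R3 + R5 + R6 + R7 + 10 ^ 20 + (2 / k) ^ 4 + C4, ?_, ?_⟩
  · linarith [show (0 : ℝ) ≤ 10 ^ 20 by norm_num]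
  intro R Γ F D v hR hD hok hv
  have h20 : (0 : ℝ) ≤ 10 ^ 20 := by norm_num
  have hR1' : R1 ≤ R := by linarith
  have hR2' : R2 ≤ R := by linarith
  have hR3' : R3 ≤ R := by linarith
  have hR5' : R5 ≤ R := by linarith
  have hR6' : R6 ≤ R := by linarith
  have hR7' : R7 ≤ R := by linarith
  have hR8 : 10 ^ 20 ≤ R := by linarith
  have hR9 : (2 / k) ^ 4 ≤ R := by linarith
  have hR10 : C4 ≤ R := by linarith
  have hRone : (1 : ℝ) ≤ R := by linarith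
  have hRpos : (0 : ℝ) < R := by linarith
  have hw : 2 * R ^ (-(1 / 4) : ℝ) ≤ k := NTS_win hk hR9
  obtain ⟨-, hw2⟩ := VFB_win (R := R) (by linarith [show (65536 : ℝ) ≤ 10 ^ 20 by norm_num])
  have hPV := NTS_PV hok.pot
  obtain ⟨-, hF, -, -, hWW⟩ := hVDM Γ F hD
  obtain ⟨-, -, -, -, hdG, -⟩ := hWW (Wi 2 R) measurableSet_Icc
  have hPWm : MeasurableSet (PW F 2 R) := hdG.prod measurableSet_Icc
  have hPG : PW F 2 R ⊆ GW 2 R := fun p hp => ⟨mem_univ _, hp.2⟩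
  have ht0 : 0 ≤ A.sg R := mul_nonneg hA.e3.le (Real.log_nonneg hRone)
  have ht : A.sg R ≤ A.e3 * Real.log R := le_rfl
  obtain ⟨q1, q2, q3, q4, q5, -⟩ := HQS R Γ F D.U hR7' hD hPV
  obtain ⟨qa1, qa2⟩ := HQA R Γ F D.U hR6' hD hPV
  obtain ⟨u1, u2, -, u4, u5, u6, -⟩ := HUM R Γ F D hR3' hD hok
  obtain ⟨f1, -, -, f4, -⟩ := HFM R (A.sg R) Γ D hR5' hok (by rw [abs_of_nonneg ht0]; exact ht)
  have hm : (0 : ℝ) ≤ R ^ (3 / 2 + C5 * A.z1) := by positivity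
  obtain ⟨r1, r2, r3, -, r5, -⟩ := HFR Γ F B D 0 (C5 * A.z1) (R ^ (3 / 2 + C5 * A.z1)) R (A.sg R) _ hD hok hη0
    hη4 hm (hw2 _ hη4) hw hRone f1
  simp only [f4] at r1 r2 r3
  have hδ : (0 : ℝ) ≤ R ^ (-5 : ℝ) := by positivity
  have hV : (0 : ℝ) ≤ C4 := by linarith
  have hN0 : 0 ≤ nP F 2 R v := integral_nonneg fun p => by positivity
  have hδV : (R ^ (-5 : ℝ) * C4) ^ 2 ≤ R ^ (-8 : ℝ) := by
    have h1 : R ^ (-5 : ℝ) * C4 ≤ R ^ (-4 : ℝ) := by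
      have h2 : R ^ (-4 : ℝ) = R ^ (-5 : ℝ) * R := by
        rw [← Real.rpow_add_one hRpos.ne']
        norm_num
      rw [h2]
      exact mul_le_mul_of_nonneg_left hR10 hδ
    calc (R ^ (-5 : ℝ) * C4) ^ 2 ≤ (R ^ (-4 : ℝ)) ^ 2 := by gcongr
      _ = R ^ (-8 : ℝ) := by
          rw [← Real.rpow_natCast, ← Real.rpow_mul hRpos.le]
          norm_num
  -- the two families
  have hΨ : NTS_R Γ R (R ^ (3 / 2 + C5 * A.z1)) (fun p => D.fl p.2 (A.sg R) p.1 • I)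
      (psi D ch A.z A.z1 R (A.sg R)) :=
    NTS_mkR hw hm r1 (fun p hp z => ⟨(r2 p hp z).1, fun h => ((r2 p hp z).2 h).1⟩) r3
  have hG : NTS_R Γ R (R ^ (3 / 2 : ℝ)) (fun q => q.1 • I) (Gp D.U ch A.z R) := by
    refine NTS_mkR hw (by positivity) q1.continuousOn (fun p _ z => ⟨(q2 p z).1, fun h => ?_⟩)
      (fun γ p z _ => q3 γ p z)
    have h1 := (q2 p z).2 h
    have h2 := hw2 A.z (by linarith)
    linarith
  have hrr : R ^ (-(1 / 2) + C1 * A.z1) ≤ A.r R := by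
    rw [Prm.r]
    refine Real.rpow_le_rpow_of_exponent_le hRone ?_
    linarith [g1.2.2.2]
  -- volumes
  have hV0 : ∀ h : SL(2, ℝ), mP {q | q ∈ GW 2 R ∧ dist (h • I : ℍ) (q.1 • I) ≤ 2} ≤ ENNReal.ofReal C4 := by
    intro h
    have h1 := (HNV Γ B D hok R hw hRone h 0 0 (1 / 4) (by norm_num) le_rfl le_rfl (by linarith)).2.2
    simp only [hok.fl0] at h1
    exact h1
  have hVt : ∀ h : SL(2, ℝ), mP {q | q ∈ GW 2 R ∧ dist (h • I : ℍ) (D.fl q.2 (A.sg R) q.1 • I) ≤ 2} ≤ ENNReal.ofReal C4 :=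
    fun h => (HNV Γ B D hok R hw hRone h 0 (A.sg R) (1 / 4) (by norm_num) le_rfl le_rfl (by linarith)).2.2
  -- the first estimate
  have hQ : FH Γ F (Qs D.U ch A.z R v) := q5 v hv
  have hO1 : FP Γ F (Op (us D ch A R) v) := u6 _ v u1 u4 hv
  have hT1 : FP Γ F (aF D R (A.sg R) (pv D ch A.z A.z1 R (A.sg R)) (Qs D.U ch A.z R v)) := r5 _ hQ
  have hTe1 : ∀ p ∈ GW 2 R, aF D R (A.sg R) (pv D ch A.z A.z1 R (A.sg R)) (Qs D.U ch A.z R v) p =
      ∫ z : ℍ, Qs D.U ch A.z R v z * conj (psi D ch A.z A.z1 R (A.sg R) p z) := by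
    intro p hp
    rw [aF, indicator_of_mem hp]
    simp only [f4]
  have E1 : nP F 2 R (fun p => Op (us D ch A R) v p -
      aF D R (A.sg R) (pv D ch A.z A.z1 R (A.sg R)) (Qs D.U ch A.z R v) p) ≤ R ^ (-8 : ℝ) * nP F 2 R v := by
    refine (NTS_err hVSH hVDM hD hΨ hG u1 u4 hδ ?_ hV (fun p _ => hV0 _) (fun q => hVt _) hv hO1 hT1 ?_).trans
      (mul_le_mul_of_nonneg_right hδV hN0)
    · intro p hp q hq
      have e1 : NTS_k R (psi D ch A.z A.z1 R (A.sg R)) (Gp D.U ch A.z R) p q =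
          ∫ z : ℍ, conj (psi D ch A.z A.z1 R (A.sg R) p z) * Gp D.U ch A.z R q z := by
        unfold NTS_k
        simp only [NTS_mem hp, NTS_mem hq]
      rw [e1]
      obtain ⟨-, -, b3, -, -⟩ := HUL R (A.sg R) Γ D p q hR1' hok ht0 ht hp hq
      by_cases hNb : Nb (A.r R) (D.ph (A.sg R) p) q
      · left
        rw [us, if_pos ⟨hp.2, hq.2, hNb⟩]
      · right
        refine ⟨?_, b3 fun h => hNb (NTS_nb hrr h)⟩
        rw [us, if_neg fun h => hNb h.2.2]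
    · intro p hp
      rw [hTe1 p hp]
      rfl
  -- the second estimate
  have hO2 : FP Γ F (Op (pr D ch A R) v) := u6 _ v (u2 0) (u5 0) hv
  have hT2 : FP Γ F (QF D.U ch A.z R (Qs D.U ch A.z R v)) := (q4 _ hQ).2
  have E2 : nP F 2 R (fun p => Op (pr D ch A R) v p - QF D.U ch A.z R (Qs D.U ch A.z R v) p) ≤
      R ^ (-8 : ℝ) * nP F 2 R v := by
    refine (NTS_err hVSH hVDM hD hG hG (u2 0) (u5 0) hδ ?_ hV (fun p _ => hV0 _) (fun q => hV0 _) hv hO2 hT2 ?_).trans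
      (mul_le_mul_of_nonneg_right hδV hN0)
    · intro p hp q hq
      show pr D ch A R p q = _ ∨ (pr D ch A R p q = 0 ∧ _)
      have e1 : NTS_k R (Gp D.U ch A.z R) (Gp D.U ch A.z R) p q =
          ∫ z : ℍ, conj (Gp D.U ch A.z R p z) * Gp D.U ch A.z R q z := by
        unfold NTS_k
        simp only [NTS_mem hp, NTS_mem hq]
      rw [e1]
      obtain ⟨-, -, -, -, b5⟩ := HUL R (A.sg R) Γ D p q hR1' hok ht0 ht hp hq
      by_cases hNb : Nb (A.r R) p q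
      · left
        rw [VQ.pr, if_pos ⟨hp.2, hq.2, hNb⟩]
      · right
        refine ⟨?_, b5 fun h => hNb (NTS_nb hrr h)⟩
        rw [VQ.pr, if_neg fun h => hNb h.2.2]
    · intro p hp
      rfl
  have hnum := NTS_num hR8
  have hx : 0 < R ^ (-(1 / 4) : ℝ) := by positivity
  have hqa := qa2 v hv
  have hnn : 0 ≤ nn F (Qs D.U ch A.z R v) := integral_nonneg fun p => by positivity
  refine ⟨?_, E2, ?_, ?_⟩
  · refine le_trans (le_of_eq ?_) E1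
    unfold nP
    refine setIntegral_congr_fun hPWm fun p hp => ?_
    simp only [hTe1 p (hPG hp)]
  · have h1 := NTS_add hF R hO1 hT1 hx
    have h2 := (HSA R (A.sg R) Γ F D hR2' hD hok ht0 ht).2 _ hQ
    have h3 : nP F 2 R (aF D R (A.sg R) (pv D ch A.z A.z1 R (A.sg R)) (Qs D.U ch A.z R v)) ≤
        (1 + R ^ (-(1 / 4) : ℝ)) ^ 2 * nP F 2 R v := h2.trans (mul_le_mul_of_nonneg_left hqa (by positivity))
    calc nP F 2 R (Op (us D ch A R) v) ≤ _ := h1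
      _ ≤ (1 + R ^ (-(1 / 4) : ℝ)) * ((1 + R ^ (-(1 / 4) : ℝ)) ^ 2 * nP F 2 R v) +
          (1 + (R ^ (-(1 / 4) : ℝ))⁻¹) * (R ^ (-8 : ℝ) * nP F 2 R v) :=
          add_le_add (mul_le_mul_of_nonneg_left h3 (by positivity)) (mul_le_mul_of_nonneg_left E1 (by positivity))
      _ = ((1 + R ^ (-(1 / 4) : ℝ)) * (1 + R ^ (-(1 / 4) : ℝ)) ^ 2 + (1 + (R ^ (-(1 / 4) : ℝ))⁻¹) * R ^ (-8 : ℝ)) *
          nP F 2 R v := by ring
      _ ≤ _ := mul_le_mul_of_nonneg_right hnum hN0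
  · have h1 := NTS_add hF R hO2 hT2 hx
    have h2 := (qa1 _ hQ).1
    have h3 : nP F 2 R (QF D.U ch A.z R (Qs D.U ch A.z R v)) ≤ (1 + R ^ (-(1 / 4) : ℝ)) ^ 2 * nP F 2 R v := by
      refine (h2.trans hqa).trans ?_
      exact le_mul_of_one_le_left hN0 (one_le_pow₀ (by linarith))
    calc nP F 2 R (Op (pr D ch A R) v) ≤ _ := h1
      _ ≤ (1 + R ^ (-(1 / 4) : ℝ)) * ((1 + R ^ (-(1 / 4) : ℝ)) ^ 2 * nP F 2 R v) +
          (1 + (R ^ (-(1 / 4) : ℝ))⁻¹) * (R ^ (-8 : ℝ) * nP F 2 R v) :=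
          add_le_add (mul_le_mul_of_nonneg_left h3 (by positivity)) (mul_le_mul_of_nonneg_left E2 (by positivity))
      _ = ((1 + R ^ (-(1 / 4) : ℝ)) * (1 + R ^ (-(1 / 4) : ℝ)) ^ 2 + (1 + (R ^ (-(1 / 4) : ℝ))⁻¹) * R ^ (-8 : ℝ)) *
          nP F 2 R v := by ring
      _ ≤ _ := mul_le_mul_of_nonneg_right hnum hN0

end

end Pool.Agent.VN
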